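import Pool.Agent.Helper30.SC.Final

set_option autoImplicit false

/-!
# The asymptotic form of the conjecture of Stanley on symmetric chains in `L(m,n)`

For every `ε > 0` and all `m`, `n` with `m + n` large, all but a proportion `ε` of the elements of
`L(m,n)` can be covered by pairwise disjoint symmetric chains.
-/

namespace Pool.Agent.Results.MP_b31059_co.AsymptoticChains

theorem result : ∀ ε : ℝ, 0 < ε → ∃ M₀ : ℕ, ∀ m n : ℕ, M₀ ≤ m + n →
    ∃ P : Set (Set (Fin m → ℕ)),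
      (∀ C ∈ P, C.Nonempty ∧
        C ⊆ {a : Fin m → ℕ | Monotone a ∧ ∀ i, a i ≤ n} ∧
        IsChain (· ≤ ·) C ∧
        Set.InjOn (fun a : Fin m → ℕ => ∑ i, a i) C ∧
        ∃ j : ℕ, (fun a : Fin m → ℕ => ∑ i, a i) '' C = Set.Icc j (m * n - j)) ∧
      P.PairwiseDisjoint id ∧
      (1 - ε) * ((m + n).choose m : ℝ) ≤ ((⋃₀ P).ncard : ℝ) :=
  fun ε hε => Pool.Agent.Helper30.SC.final ε hε

end Pool.Agent.Results.MP_b31059_co.AsymptoticChains
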