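import Pool.Agent.Helper65.LMD.Main
import Pool.Agent.Helper58.LB.Symm

/-!
# The conjecture of Stanley on `L(m,n)` for `m = 5` (or `n = 5`)

The lattices `L(5,n)` and `L(m,5)` are symmetric chain orders, for all `n` and `m`.
-/

set_option autoImplicit false

namespace Pool.Agent.Results.MP_b31059_co.MinFive

/-- For all `m`, `n` with `m = 5` or `n = 5`, the set of nondecreasing sequences of length `m` with
entries in `0..n` can be partitioned into chains, each having exactly one element of every rank
`j, j+1, …, mn−j` for some `j`, where the rank is the sum of the entries. -/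
theorem result : ∀ m n : ℕ, m = 5 ∨ n = 5 →
    ∃ P : Set (Set (Fin m → ℕ)),
      (∀ C ∈ P,
        C ⊆ {a : Fin m → ℕ | Monotone a ∧ ∀ i, a i ≤ n} ∧
        IsChain (· ≤ ·) C ∧
        Set.InjOn (fun a : Fin m → ℕ => ∑ i, a i) C ∧
        ∃ j : ℕ, (fun a : Fin m → ℕ => ∑ i, a i) '' C = Set.Icc j (m * n - j)) ∧
      ∀ a : Fin m → ℕ, Monotone a → (∀ i, a i ≤ n) →
        ∃! C : Set (Fin m → ℕ), C ∈ P ∧ a ∈ C := by
  intro m n h
  rcases h with rfl | rfl
  · exact Pool.LMD.sco n
  · exact Pool.LS.sco_symm 5 m (Pool.LMD.sco m)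

end Pool.Agent.Results.MP_b31059_co.MinFive
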