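import Pool.Agent.Helper43.SN.Final
import Pool.Agent.Helper58.LB.Symm

set_option autoImplicit false

/-!
# The conjecture of Stanley on `L(m,n)`: for every value of `min(m,n)` at most finitely many exceptions

For every `k ≥ 5` there is `N` such that `L(m,n)` is a symmetric chain order for all `m`, `n` with
`min(m,n) = k` and `max(m,n) ≥ N`.
-/

namespace Pool.Agent.Results.MP_b31059_co.MinFixed

/-- For every `k ≥ 5` there is `N` such that for all `m`, `n` with `min m n = k` and `N ≤ max m n` the
set of nondecreasing sequences of length `m` with entries in `0..n` can be partitioned into chains,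
each having exactly one element of every rank `j, j+1, …, mn−j` for some `j`, where the rank is the
sum of the entries. -/
theorem result : ∀ k : ℕ, 5 ≤ k → ∃ N : ℕ, ∀ m n : ℕ, min m n = k → N ≤ max m n →
    ∃ P : Set (Set (Fin m → ℕ)),
      (∀ C ∈ P,
        C ⊆ {a : Fin m → ℕ | Monotone a ∧ ∀ i, a i ≤ n} ∧
        IsChain (· ≤ ·) C ∧
        Set.InjOn (fun a : Fin m → ℕ => ∑ i, a i) C ∧
        ∃ j : ℕ, (fun a : Fin m → ℕ => ∑ i, a i) '' C = Set.Icc j (m * n - j)) ∧
      ∀ a : Fin m → ℕ, Monotone a → (∀ i, a i ≤ n) →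
        ∃! C : Set (Fin m → ℕ), C ∈ P ∧ a ∈ C := by
  intro k hk
  obtain ⟨n₀, h⟩ := Pool.Agent.Helper43.SN.final k hk
  refine ⟨n₀, fun m n hmin hmax => ?_⟩
  rcases Nat.le_total m n with hmn | hmn
  · rw [min_eq_left hmn] at hmin
    rw [max_eq_right hmn] at hmax
    subst hmin
    exact h n hmax
  · rw [min_eq_right hmn] at hmin
    rw [max_eq_left hmn] at hmax
    subst hmin
    exact Pool.LS.sco_symm n m (h m hmax)

end Pool.Agent.Results.MP_b31059_co.MinFixed
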